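import Pool.Agent.H23.PG.Sys
import Pool.Graph.R_seed8.Y787.PStrat
import Pool.Graph.R_seed8.W245.PB.PLog

/-!
# Applications of the theorem on thin families
-/

set_option autoImplicit false
set_option linter.unusedSectionVars false

namespace Pool.Agent.H23.PG

open Filter Module Finset
open Pool.Agent.Y787 (QC mem_QC HypC hyperplane)
open Pool.Agent.W245.PB (IsIwasawaLog exists_near QbarP)
open Pool.Agent.W254.PA (LtE logs)

variable {p : ℕ} [hp : Fact p.Prime] {L : PadicAlgCl p → PadicAlgCl p}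

/-- numbers which are multiplicatively independent modulo the powers of `p` have independent logarithms -/
theorem li_of_mult (hL : IsIwasawaLog p L) {ι : Type} [Fintype ι] (v : ι → PadicAlgCl p) (hv : ∀ i, v i ≠ 0)
    (h : ∀ (c : ι → ℤ) (e : ℤ), ∏ i, v i ^ c i = (p : PadicAlgCl p) ^ e → c = 0) :
    LinearIndependent ℚ (fun i => L (v i)) := by
  classical
  have hpne : (p : PadicAlgCl p) ≠ 0 := Nat.cast_ne_zero.2 hp.out.ne_zero
  apply Pool.Agent.W245.PB.linearIndependent_of_int
  intro c hc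
  set x : PadicAlgCl p := ∏ i, v i ^ c i with hx
  have hx0 : x ≠ 0 := Finset.prod_ne_zero_iff.2 fun i _ => zpow_ne_zero _ (hv i)
  have hLx : L x = 0 := by
    rw [hx, hL.prod _ _ (fun i _ => zpow_ne_zero _ (hv i)), ← hc]
    apply Finset.sum_congr rfl
    intro i _
    rw [hL.zpow (hv i)]
  obtain ⟨m, e, hm, hnear⟩ := exists_near hx0
  have h1 := hL.eq_one hnear (by
    rw [hL.mul _ _ (pow_ne_zero _ hx0) (zpow_ne_zero _ hpne), hL.pow hx0, hL.zpow hpne, hLx,
      hL.prime, mul_zero, mul_zero, add_zero])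
  have h2 : ∏ i, v i ^ ((m : ℤ) * c i) = (p : PadicAlgCl p) ^ (-e) := by
    have h3 : ∏ i, v i ^ ((m : ℤ) * c i) = x ^ m := by
      rw [hx, ← Finset.prod_pow]
      refine Finset.prod_congr rfl fun i _ => ?_
      rw [← zpow_natCast, ← zpow_mul, mul_comm]
    rw [h3, zpow_neg]
    exact eq_inv_of_mul_eq_one_left h1
  have h4 := h _ _ h2
  intro i
  have h5 : (m : ℤ) * c i = 0 := congrFun h4 i
  rcases mul_eq_zero.1 h5 with h6 | h6
  · exact absurd (by exact_mod_cast h6) hm.ne'
  · exact h6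

/-- independence of the columns -/
theorem rows_of_li {m N : ℕ} (Λ : Fin m → Fin N → PadicAlgCl p)
    (h : LinearIndependent (QC (PadicAlgCl p)) (fun q : Fin m × Fin N => Λ q.1 q.2)) (a : Fin m → QC (PadicAlgCl p)) (ha : a ≠ 0) :
    LinearIndependent (QC (PadicAlgCl p)) (fun k => ∑ i, (a i : PadicAlgCl p) * Λ i k) := by
  classical
  rw [Fintype.linearIndependent_iff] at h ⊢
  intro g hg
  have h1 := h (fun q => a q.1 * g q.2) (by
    rw [← hg, Fintype.sum_prod_type, Finset.sum_comm]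
    refine Finset.sum_congr rfl fun k _ => ?_
    rw [Finset.smul_sum]
    refine Finset.sum_congr rfl fun i _ => ?_
    rw [Algebra.smul_def, Algebra.smul_def, map_mul]
    show (a i : PadicAlgCl p) * (g k : PadicAlgCl p) * Λ i k = (g k : PadicAlgCl p) * ((a i : PadicAlgCl p) * Λ i k)
    ring)
  obtain ⟨i, hi⟩ : ∃ i, a i ≠ 0 := by
    by_contra hcon
    push Not at hcon
    exact ha (funext hcon)
  intro k
  have h2 := h1 (i, k)
  rcases mul_eq_zero.1 h2 with h3 | h3
  · exact absurd h3 hi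
  · exact h3

/-- the columns of a Hankel matrix -/
theorem rows_hankel {m N : ℕ} (l : ℕ → PadicAlgCl p)
    (h : LinearIndependent (QC (PadicAlgCl p)) (fun s : Fin (m + N) => l s)) (a : Fin m → QC (PadicAlgCl p)) (ha : a ≠ 0) :
    LinearIndependent (QC (PadicAlgCl p)) (fun k : Fin N => ∑ i : Fin m, (a i : PadicAlgCl p) * l (i + k)) := by
  classical
  rw [Fintype.linearIndependent_iff] at h ⊢
  intro g hg
  obtain ⟨A, hA⟩ : ∃ A : Polynomial (QC (PadicAlgCl p)), A = ∑ i : Fin m, Polynomial.C (a i) * Polynomial.X ^ (i : ℕ) := ⟨_, rfl⟩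
  obtain ⟨G, hG⟩ : ∃ G : Polynomial (QC (PadicAlgCl p)), G = ∑ k : Fin N, Polynomial.C (g k) * Polynomial.X ^ (k : ℕ) := ⟨_, rfl⟩
  have hAc : ∀ i : Fin m, A.coeff i = a i := by
    intro i
    rw [hA, Polynomial.finsetSum_coeff]
    simp only [Polynomial.coeff_C_mul, Polynomial.coeff_X_pow]
    rw [Finset.sum_eq_single i]
    · simp
    · intro j _ hj
      rw [if_neg (fun h => hj (Fin.ext h.symm)), mul_zero]
    · intro h; exact absurd (mem_univ _) h
  have hGc : ∀ k : Fin N, G.coeff k = g k := by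
    intro k
    rw [hG, Polynomial.finsetSum_coeff]
    simp only [Polynomial.coeff_C_mul, Polynomial.coeff_X_pow]
    rw [Finset.sum_eq_single k]
    · simp
    · intro j _ hj
      rw [if_neg (fun h => hj (Fin.ext h.symm)), mul_zero]
    · intro h; exact absurd (mem_univ _) h
  have hA0 : A ≠ 0 := by
    intro h0
    apply ha
    funext i
    rw [← hAc i, h0, Polynomial.coeff_zero]
    rfl
  have hprod : A * G = ∑ i : Fin m, ∑ k : Fin N, Polynomial.C (a i * g k) * Polynomial.X ^ ((i : ℕ) + k) := by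
    rw [hA, hG, Finset.sum_mul]
    refine Finset.sum_congr rfl fun i _ => ?_
    rw [Finset.mul_sum]
    refine Finset.sum_congr rfl fun k _ => ?_
    rw [Polynomial.C_mul, pow_add]
    ring
  have hcoef : ∀ s : ℕ, (A * G).coeff s = ∑ i : Fin m, ∑ k : Fin N, if s = (i : ℕ) + k then a i * g k else 0 := by
    intro s
    rw [hprod, Polynomial.finsetSum_coeff]
    refine Finset.sum_congr rfl fun i _ => ?_
    rw [Polynomial.finsetSum_coeff]
    refine Finset.sum_congr rfl fun k _ => ?_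
    rw [Polynomial.coeff_C_mul, Polynomial.coeff_X_pow]
    split_ifs <;> simp
  have h1 := h (fun s => (A * G).coeff s) (by
    rw [← hg]
    have e1 : ∀ s : Fin (m + N), (A * G).coeff s • l s =
        ∑ i : Fin m, ∑ k : Fin N, if (s : ℕ) = (i : ℕ) + k then ((a i * g k : QC (PadicAlgCl p)) : PadicAlgCl p) * l (i + k) else 0 := by
      intro s
      rw [hcoef, Finset.sum_smul]
      refine Finset.sum_congr rfl fun i _ => ?_
      rw [Finset.sum_smul]
      refine Finset.sum_congr rfl fun k _ => ?_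
      by_cases hs : (s : ℕ) = (i : ℕ) + k
      · rw [if_pos hs, if_pos hs, Algebra.smul_def, ← hs]
        rfl
      · rw [if_neg hs, if_neg hs, zero_smul]
    rw [Finset.sum_congr rfl fun s _ => e1 s, Finset.sum_comm]
    have e2 : ∀ i : Fin m, ∑ s : Fin (m + N), ∑ k : Fin N, (if (s : ℕ) = (i : ℕ) + k then ((a i * g k : QC (PadicAlgCl p)) : PadicAlgCl p) * l (i + k) else 0) =
        ∑ k : Fin N, ((a i * g k : QC (PadicAlgCl p)) : PadicAlgCl p) * l (i + k) := by
      intro i
      rw [Finset.sum_comm]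
      refine Finset.sum_congr rfl fun k _ => ?_
      rw [Finset.sum_eq_single (⟨(i : ℕ) + k, by omega⟩ : Fin (m + N))]
      · rw [if_pos rfl]
      · intro s _ hs
        rw [if_neg]
        intro h'
        exact hs (Fin.ext h')
      · intro h; exact absurd (mem_univ _) h
    rw [Finset.sum_congr rfl fun i _ => e2 i, Finset.sum_comm]
    refine Finset.sum_congr rfl fun k _ => ?_
    rw [Finset.smul_sum]
    refine Finset.sum_congr rfl fun i _ => ?_
    rw [Algebra.smul_def]
    show ((a i * g k : QC (PadicAlgCl p)) : PadicAlgCl p) * l (i + k) = (g k : PadicAlgCl p) * ((a i : PadicAlgCl p) * l (i + k))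
    have e3 : ((a i * g k : QC (PadicAlgCl p)) : PadicAlgCl p) = (a i : PadicAlgCl p) * (g k : PadicAlgCl p) := rfl
    rw [e3]
    ring)
  have h2 : A * G = 0 := by
    refine Polynomial.ext fun s => ?_
    rw [Polynomial.coeff_zero]
    by_cases hs : s < m + N
    · exact h1 ⟨s, hs⟩
    · rw [hcoef, Finset.sum_eq_zero]
      · intro i _
        refine Finset.sum_eq_zero fun k _ => ?_
        rw [if_neg (by omega)]
  intro k
  rcases mul_eq_zero.1 h2 with h3 | h3
  · exact absurd h3 hA0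
  · rw [← hGc k, h3, Polynomial.coeff_zero]

/-- the number of the integral points -/
theorem count_box {N d : ℕ} (S : Set (Fin N → QC (PadicAlgCl p)))
    (hS : ∀ φ : Fin (d + 1) → ((Fin N → QC (PadicAlgCl p)) →ₗ[QC (PadicAlgCl p)] QC (PadicAlgCl p)),
      ∃ P : MvPolynomial (Fin (d + 1)) (QC (PadicAlgCl p)), P ≠ 0 ∧ ∀ b ∈ S, MvPolynomial.eval (fun k => φ k b) P = 0) :
    ∃ κ : ℕ, ∀ H : ℕ, 1 ≤ H → Set.ncard {b : Fin N → ℤ | (∀ k, |b k| ≤ H) ∧ (fun k => (b k : QC (PadicAlgCl p))) ∈ S} ≤ κ * H ^ d := by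
  classical
  obtain ⟨κ, hκ⟩ := Pool.Agent.TH519.HS.count (K := QC (PadicAlgCl p)) S hS
  refine ⟨κ, fun H hH => ?_⟩
  set V := {b : Fin N → ℤ | (∀ k, |b k| ≤ H) ∧ (fun k => (b k : QC (PadicAlgCl p))) ∈ S} with hV
  have hfin : V.Finite := by
    refine (Set.finite_Icc (fun _ : Fin N => -(H : ℤ)) (fun _ => (H : ℤ))).subset fun b hb => ?_
    rw [Set.mem_Icc]
    exact ⟨fun k => (abs_le.1 (hb.1 k)).1, fun k => (abs_le.1 (hb.1 k)).2⟩
  rw [Set.ncard_eq_toFinset_card V hfin]
  refine hκ H hH _ fun b hb => ?_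
  rw [Set.Finite.mem_toFinset] at hb
  exact hb

end Pool.Agent.H23.PG
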