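import Mathlib
import Pool.Graph.R_seed8.Y787.HS.Log2
import Pool.Graph.R_pool_sql_team_seeded_5cf16337.K3h28.NF.VDet

/-!
# Combinations of the columns of a matrix of linear forms in logarithms
-/

set_option autoImplicit false
set_option linter.unusedSectionVars false

namespace Pool.Agent.H23.PG

open Filter Module Pool.Agent.Y787.GL Pool.Agent.Y787.FE Pool.Agent.Y787.HS
open Pool.Agent.TH519.GL Pool.Agent.TH519.HS
open Pool.Agent.Y787 (QC mem_QC HypC hyperplane)
open Pool.Agent.K3h28.NF (Wide)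

variable {Cc : Type} [Field Cc] [CharZero Cc] [IsAlgClosed Cc] [Uncountable Cc] {Lt : Submodule (QC Cc) Cc}
  [HypC Lt]

/-- the pairing with a combination of the rows -/
noncomputable def pr {m N : ℕ} (Λ : Fin m → Fin N → Cc) (a : Fin m → (QC Cc)) :
    (Fin N → (QC Cc)) →ₗ[(QC Cc)] Cc :=
  Fintype.linearCombination (QC Cc) fun k => ∑ i, (a i : Cc) * Λ i k

theorem pr_apply {m N : ℕ} (Λ : Fin m → Fin N → Cc) (a : Fin m → (QC Cc)) (b : Fin N → (QC Cc)) :
    pr Λ a b = ∑ i, ∑ k, (a i : Cc) * (b k : Cc) * Λ i k := by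
  rw [pr, Fintype.linearCombination_apply, Finset.sum_comm]
  refine Finset.sum_congr rfl fun k _ => ?_
  rw [Finset.smul_sum]
  refine Finset.sum_congr rfl fun i _ => ?_
  rw [Algebra.smul_def]
  show (b k : Cc) * ((a i : Cc) * Λ i k) = (a i : Cc) * (b k : Cc) * Λ i k
  ring

/-- For every nontrivial combination of the rows of `Λ`, the entries satisfy at most `s` independent
relations. -/
def DefLE (s : ℕ) {m N : ℕ} (Λ : Fin m → Fin N → Cc) : Prop :=
  ∀ a : Fin m → (QC Cc), a ≠ 0 → finrank (QC Cc) (LinearMap.ker (pr Λ a)) ≤ s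

theorem exists_compl {K W : Type*} [Field K] [AddCommGroup W] [Module K W] [FiniteDimensional K W]
    (V U : Submodule K W) (h s : ℕ) (hU : finrank K U ≤ s) (hV : h + s < finrank K V) :
    ∃ V' : Submodule K W, V' ≤ V ∧ h < finrank K V' ∧ V' ⊓ U = ⊥ := by
  obtain ⟨X, hX⟩ := Submodule.exists_isCompl (U.comap V.subtype)
  refine ⟨X.map V.subtype, ?_, ?_, ?_⟩
  · rintro _ ⟨x, _, rfl⟩
    exact x.2
  · have h1 := Submodule.finrank_add_eq_of_isCompl hX
    have h2 : finrank K (X.map V.subtype) = finrank K X :=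
      Submodule.finrank_map_subtype_eq V X
    have h3 : finrank K (U.comap V.subtype) ≤ finrank K U := by
      have h4 : finrank K ((U.comap V.subtype).map V.subtype) = finrank K (U.comap V.subtype) :=
        Submodule.finrank_map_subtype_eq V _
      rw [← h4]
      exact Submodule.finrank_mono (Submodule.map_comap_le _ _)
    omega
  · rw [Submodule.eq_bot_iff]
    rintro _ ⟨⟨x, hx, rfl⟩, hxU⟩
    have h1 : x ∈ (U.comap V.subtype) ⊓ X := ⟨hxU, hx⟩
    rw [hX.inf_eq_bot] at h1
    rw [(Submodule.mem_bot K).1 h1, map_zero]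

/-- Matrices of linear forms in logarithms are wide. -/
theorem wide_of_def {m N s : ℕ} (Λ : Fin m → Fin N → Cc) (hΛ : ∀ i k, Λ i k ∈ Lt)
    (hgen : DefLE s Λ) : Wide (QC Cc) (m * (m - 1) + s) (fun (k : Fin N) (i : Fin m) => Λ i k) := by
  classical
  intro V₀ hV₀ α hα
  by_contra hα0
  set X : Submodule (QC Cc) Cc := Submodule.span (QC Cc) (Set.range α) with hX
  have hXf : FiniteDimensional (QC Cc) X := FiniteDimensional.span_of_finite (QC Cc) (Set.finite_range _)
  set d := finrank (QC Cc) X with hd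
  have hdm : d ≤ m := by
    have := finrank_range_le_card (R := (QC Cc)) α
    rwa [Fintype.card_fin] at this
  let bX := Module.finBasis (QC Cc) X
  let x : Fin d → Cc := fun e => ((bX e : X) : Cc)
  have hx : LinearIndependent (QC Cc) x := bX.linearIndependent.map' X.subtype X.ker_subtype
  have hαX : ∀ c, α c ∈ X := fun c => Submodule.subset_span ⟨c, rfl⟩
  let ρ : Fin m → Fin d → (QC Cc) := fun c e => bX.repr ⟨α c, hαX c⟩ e
  have hαr : ∀ c, α c = ∑ e, ρ c e • x e := by
    intro c
    have h3 := bX.sum_repr ⟨α c, hαX c⟩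
    have h4 := congrArg (fun z : X => (z : Cc)) h3
    simp only [Submodule.coe_sum, Submodule.coe_smul] at h4
    exact h4.symm
  obtain ⟨c₁, e₁, hce⟩ : ∃ c e, ρ c e ≠ 0 := by
    by_contra hcon
    push Not at hcon
    apply hα0
    funext c
    rw [hαr c, Pi.zero_apply]
    apply Finset.sum_eq_zero
    intro e _
    rw [hcon c e, zero_smul]
  obtain ⟨V, hVV₀, hV, hVU⟩ := exists_compl V₀ (LinearMap.ker (pr Λ (fun c => ρ c e₁)))
    (m * (m - 1)) s (hgen _ fun h => hce (congrFun h c₁)) hV₀
  set l := finrank (QC Cc) V with hl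
  let bV := Module.finBasis (QC Cc) V
  let T : Fin l → (Fin N → (QC Cc)) := fun k => (bV k : Fin N → (QC Cc))
  have hTV : ∀ k, T k ∈ V := fun k => (bV k).2
  let a : Fin d → Fin l → Cc := fun e k => ∑ c, ρ c e • ∑ i, T k i • Λ c i
  have hhyp := Pool.Agent.Y787.hyperplane (Lt := Lt) d l x a hx ?_ ?_ ?_
  · have h1 : d * (d - 1) ≤ m * (m - 1) := by
      apply Nat.mul_le_mul hdm
      omega
    omega
  · intro e k
    apply Submodule.sum_mem
    intro c _
    apply Submodule.smul_mem
    apply Submodule.sum_mem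
    intro i _
    exact Submodule.smul_mem _ _ (hΛ c i)
  · intro k
    have h1 := hα (T k) (hVV₀ (hTV k))
    rw [← h1]
    simp only [a, Finset.mul_sum]
    rw [Finset.sum_comm]
    apply Finset.sum_congr rfl
    intro c _
    conv_rhs => rw [hαr c]
    simp only [Finset.sum_mul, Finset.mul_sum, Finset.smul_sum]
    rw [Finset.sum_comm]
    apply Finset.sum_congr rfl
    intro i _
    apply Finset.sum_congr rfl
    intro e _
    simp only [Algebra.smul_def]
    ring
  · rw [Fintype.linearIndependent_iff]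
    intro g hg
    have h3 : ∑ k, g k • T k = 0 := by
      have h2 := congrFun hg e₁
      rw [Finset.sum_apply, Pi.zero_apply] at h2
      have h5 : ∑ k, g k • T k ∈ V ⊓ LinearMap.ker (pr Λ (fun c => ρ c e₁)) := by
        refine ⟨Submodule.sum_mem _ fun k _ => Submodule.smul_mem _ _ (hTV k), ?_⟩
        show pr Λ (fun c => ρ c e₁) (∑ k, g k • T k) = 0
        rw [pr_apply, ← h2]
        simp only [Pi.smul_apply, a, Finset.smul_sum, smul_smul]
        conv_rhs => rw [Finset.sum_comm]
        apply Finset.sum_congr rfl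
        intro c _
        conv_rhs => rw [Finset.sum_comm]
        apply Finset.sum_congr rfl
        intro i _
        rw [Finset.sum_apply]
        have h4 : (((∑ k, (g k • T k) i : (QC Cc))) : Cc) = ∑ k, (g k : Cc) * (T k i : Cc) := by
          rw [← IntermediateField.algebraMap_apply, map_sum]
          apply Finset.sum_congr rfl
          intro k _
          rw [Pi.smul_apply, smul_eq_mul, map_mul]
          rfl
        rw [h4, Finset.mul_sum, Finset.sum_mul]
        apply Finset.sum_congr rfl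
        intro k _
        rw [Algebra.smul_def, map_mul, map_mul]
        show (ρ c e₁ : Cc) * ((g k : Cc) * (T k i : Cc)) * Λ c i = (g k : Cc) * ((ρ c e₁ : Cc) * (T k i : Cc)) * Λ c i
        ring
      rw [hVU] at h5
      exact (Submodule.mem_bot (QC Cc)).1 h5
    refine Fintype.linearIndependent_iff.1 bV.linearIndependent g ?_
    apply Subtype.ext
    rw [Submodule.coe_sum]
    simpa using h3

/-- a point with parameters -/
noncomputable def dpt {m p N : ℕ} (Λ : Fin m → Fin N → Cc) (ζ : Fin m → Cc) (b : Fin N → (QC Cc))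
    (c : Fin p → (QC Cc)) : Fin m ⊕ Fin p → Cc :=
  Sum.elim (fun i => ζ i + cmb (Λ i) b) (fun l => (c l : Cc))

/-- **Master theorem.** -/
theorem dmaster {N m r p n s : ℕ} (hn : n = m * (m - 1) + s + p + 1) (Λ : Fin m → Fin N → Cc) (hΛ : ∀ i k, Λ i k ∈ Lt)
    (hgen : DefLE s Λ) (ζ : Fin m → Cc) (f : Fin r → MvPolynomial (Fin m ⊕ Fin p) Cc)
    (φ : Fin n → ((Fin N → (QC Cc)) →ₗ[(QC Cc)] (QC Cc))) :
    ∃ P : MvPolynomial (Fin n) (QC Cc), P ≠ 0 ∧
      ∀ (b : Fin N → (QC Cc)) (c : Fin p → (QC Cc)),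
        (∀ j, MvPolynomial.eval (dpt Λ ζ b c) (f j) = 0) →
        (∃ j i, MvPolynomial.eval (dpt Λ ζ b c) (MvPolynomial.pderiv (Sum.inl i) (f j)) ≠ 0) →
        MvPolynomial.eval (fun k => φ k b) P = 0 := by
  classical
  by_contra hcon
  push Not at hcon
  set ι : Type := {x : (Fin N → (QC Cc)) × (Fin p → (QC Cc)) //
    (∀ j, MvPolynomial.eval (dpt Λ ζ x.1 x.2) (f j) = 0) ∧
    (∃ j i, MvPolynomial.eval (dpt Λ ζ x.1 x.2) (MvPolynomial.pderiv (Sum.inl i) (f j)) ≠ 0)} with hι
  obtain ⟨𝒰, hgen'⟩ := exists_ultra' (ι := ι)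
    (fun x k => φ k x.1.1) (by
    intro P hP
    obtain ⟨b, c, h1, h2, h3⟩ := hcon P hP
    exact ⟨⟨(b, c), h1, h2⟩, h3⟩)
  obtain ⟨D, g, hg, hD2, hDc, hφ⟩ := exists_system 𝒰 (fun (x : ι) => x.1.1) φ hgen'
  set dy : Fin n → ι → Fin m ⊕ Fin p → Cc := fun k x =>
    Sum.elim (fun i => cmb (Λ i) (fun j => g k (fun x => x.1.1 j) x))
      (fun l => (g k (fun x => x.1.2 l) x : Cc)) with hdy
  have hHD : ∀ k i, HD (D k) (fun x : ι => dpt Λ ζ x.1.1 x.1.2 i) (fun x => dy k x i) := by
    intro k i
    cases i with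
    | inl i =>
      have h1 : HD (D k) (fun x : ι => cmb (Λ i) x.1.1)
        (fun x => cmb (Λ i) (fun j => g k (fun x => x.1.1 j) x)) := hDc (Λ i) k (fun x => x.1.1)
      have h2 := HD.add (HDc (hD2 k) (ζ i)) h1
      have h3 : (fun x : ι => (0 : Cc) + cmb (Λ i) (fun j => g k (fun x => x.1.1 j) x)) =
          fun x : ι => cmb (Λ i) (fun j => g k (fun x => x.1.1 j) x) := by
        funext x
        rw [zero_add]
      rw [h3] at h2
      exact h2
    | inr l => exact hg k (fun x => x.1.2 l)
  have hrel : ∀ᶠ x in (𝒰 : Filter ι), ∀ k j, ∑ i,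
      MvPolynomial.eval (dpt Λ ζ x.1.1 x.1.2) (MvPolynomial.pderiv i (f j)) * dy k x i = 0 := by
    rw [Filter.eventually_all]
    intro k
    rw [Filter.eventually_all]
    intro j
    refine HD.congr (HDeval (hD2 k) (fun (x : ι) => dpt Λ ζ x.1.1 x.1.2) (dy k) (hHD k) (f j))
      (HDc (hD2 k) 0) (Filter.Eventually.of_forall fun x => x.2.1 j)
  obtain ⟨x, hx1, hx2⟩ := (hrel.and hφ).exists
  obtain ⟨j₀, i₀, hj₀⟩ := x.2.2
  -- the combinations of the derivations which vanish on the parameters
  let δ : Fin n → Fin N → (QC Cc) := fun k j => g k (fun x => x.1.1 j) x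
  let Cm : (Fin n → (QC Cc)) →ₗ[(QC Cc)] (Fin p → (QC Cc)) :=
    { toFun := fun q l => ∑ k, q k * g k (fun x => x.1.2 l) x
      map_add' := by
        intro q q'
        funext l
        simp only [Pi.add_apply, add_mul, Finset.sum_add_distrib]
      map_smul' := by
        intro a q
        funext l
        simp only [Pi.smul_apply, smul_eq_mul, RingHom.id_apply, Finset.mul_sum, mul_assoc] }
  let Bm : (Fin n → (QC Cc)) →ₗ[(QC Cc)] (Fin N → (QC Cc)) :=
    { toFun := fun q => ∑ k, q k • δ k
      map_add' := by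
        intro q q'
        simp only [Pi.add_apply, add_smul, Finset.sum_add_distrib]
      map_smul' := by
        intro a q
        simp only [Pi.smul_apply, smul_eq_mul, RingHom.id_apply, Finset.smul_sum, mul_smul] }
  have hBinj : Function.Injective Bm := by
    rw [← LinearMap.ker_eq_bot, LinearMap.ker_eq_bot']
    intro q hq
    funext k
    have h1 := congrArg (φ k) hq
    have h2 : Bm q = ∑ k, q k • δ k := rfl
    rw [h2, map_sum, map_zero] at h1
    have h3 : ∀ k', φ k (q k' • δ k') = if k = k' then q k' else 0 := by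
      intro k'
      rw [map_smul, smul_eq_mul]
      have h4 := hx2 k k'
      have h5 : φ k (δ k') = if k = k' then 1 else 0 := h4
      rw [h5]
      split_ifs <;> simp
    simp only [h3] at h1
    rw [Finset.sum_ite_eq Finset.univ k] at h1
    simpa using h1
  set V : Submodule (QC Cc) (Fin N → (QC Cc)) := (LinearMap.ker Cm).map Bm with hV
  have hVdim : m * (m - 1) + s < finrank (QC Cc) V := by
    have h1 : finrank (QC Cc) V = finrank (QC Cc) (LinearMap.ker Cm) :=
      (LinearEquiv.finrank_eq (Submodule.equivMapOfInjective Bm hBinj (LinearMap.ker Cm))).symm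
    have h2 := LinearMap.finrank_range_add_finrank_ker Cm
    rw [Module.finrank_fintype_fun_eq_card, Fintype.card_fin] at h2
    have h3 : finrank (QC Cc) (LinearMap.range Cm) ≤ p := by
      refine (Submodule.finrank_le _).trans ?_
      rw [Module.finrank_fintype_fun_eq_card, Fintype.card_fin]
    omega
  have hwide := wide_of_def Λ hΛ hgen V hVdim
    (fun i => MvPolynomial.eval (dpt Λ ζ x.1.1 x.1.2) (MvPolynomial.pderiv (Sum.inl i) (f j₀))) ?_
  · exact hj₀ (congrFun hwide i₀)
  · rintro T ⟨q, hq, rfl⟩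
    have hq' : ∀ l, ∑ k, q k * g k (fun x => x.1.2 l) x = 0 := by
      intro l
      have h1 : Cm q = 0 := hq
      exact congrFun h1 l
    have h1 : ∑ k, (q k : Cc) * ∑ i, MvPolynomial.eval (dpt Λ ζ x.1.1 x.1.2)
        (MvPolynomial.pderiv i (f j₀)) * dy k x i = 0 := by
      apply Finset.sum_eq_zero
      intro k _
      rw [hx1 k j₀, mul_zero]
    simp only [Fintype.sum_sum_type, mul_add, Finset.sum_add_distrib] at h1
    have h2 : ∑ k, (q k : Cc) * ∑ l, MvPolynomial.eval (dpt Λ ζ x.1.1 x.1.2)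
        (MvPolynomial.pderiv (Sum.inr l) (f j₀)) * dy k x (Sum.inr l) = 0 := by
      simp only [Finset.mul_sum]
      rw [Finset.sum_comm]
      apply Finset.sum_eq_zero
      intro l _
      have h3 : ∑ k, (q k : Cc) * (MvPolynomial.eval (dpt Λ ζ x.1.1 x.1.2)
          (MvPolynomial.pderiv (Sum.inr l) (f j₀)) * dy k x (Sum.inr l)) =
          MvPolynomial.eval (dpt Λ ζ x.1.1 x.1.2) (MvPolynomial.pderiv (Sum.inr l) (f j₀)) *
            ((∑ k, q k * g k (fun x => x.1.2 l) x : (QC Cc)) : Cc) := by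
        rw [← IntermediateField.algebraMap_apply, map_sum, Finset.mul_sum]
        apply Finset.sum_congr rfl
        intro k _
        rw [map_mul]
        show (q k : Cc) * (_ * (g k (fun x => x.1.2 l) x : Cc)) =
          _ * ((q k : Cc) * (g k (fun x => x.1.2 l) x : Cc))
        ring
      rw [h3, hq' l]
      simp
    rw [h2, add_zero] at h1
    refine Eq.trans ?_ h1
    simp only [Finset.mul_sum]
    conv_rhs => rw [Finset.sum_comm]
    apply Finset.sum_congr rfl
    intro i _
    rw [← Finset.mul_sum]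
    have h4 : ∑ k, (Bm q) k • Λ i k = ∑ k, (q k : Cc) * dy k x (Sum.inl i) := by
      have h5 : ∀ k, dy k x (Sum.inl i) = ∑ j, (δ k j : Cc) * Λ i j := by
        intro k
        simp only [hdy, Sum.elim_inl]
        rfl
      simp only [h5, Finset.mul_sum]
      rw [Finset.sum_comm]
      apply Finset.sum_congr rfl
      intro j _
      have h6 : (Bm q) j = ∑ k, q k * δ k j := by
        show (∑ k, q k • δ k) j = _
        rw [Finset.sum_apply]
        rfl
      rw [h6, Algebra.smul_def, map_sum, Finset.sum_mul]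
      apply Finset.sum_congr rfl
      intro k _
      rw [map_mul]
      show (q k : Cc) * (δ k j : Cc) * Λ i j = (q k : Cc) * ((δ k j : Cc) * Λ i j)
      ring
    calc MvPolynomial.eval (dpt Λ ζ x.1.1 x.1.2) (MvPolynomial.pderiv (Sum.inl i) (f j₀)) *
          ∑ k, (Bm q) k • Λ i k =
        MvPolynomial.eval (dpt Λ ζ x.1.1 x.1.2) (MvPolynomial.pderiv (Sum.inl i) (f j₀)) *
          ∑ k, (q k : Cc) * dy k x (Sum.inl i) := by rw [h4]
      _ = _ := by
        rw [Finset.mul_sum]
        apply Finset.sum_congr rfl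
        intro k _
        ring

end Pool.Agent.H23.PG
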