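import Mathlib
import Pool.Agent.H23.PG.Mas
import Pool.Graph.R_seed8.Y787.HS.Log

/-!
# Relations of bounded degree along the columns of a 1-generic matrix
-/

set_option autoImplicit false
set_option linter.unusedSectionVars false

namespace Pool.Agent.H23.PG

open Filter Module Pool.Agent.Y787.GL Pool.Agent.Y787.FE Pool.Agent.Y787.HS
open Pool.Agent.TH519.GL Pool.Agent.TH519.HS
open Pool.Agent.Y787 (QC mem_QC HypC hyperplane)
open Pool.Agent.H297R2 (Ex card_Ex)

variable {Cc : Type} [Field Cc] [CharZero Cc] [IsAlgClosed Cc] [Uncountable Cc] {Lt : Submodule (QC Cc) Cc}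
  [HypC Lt]

/-- the point with coordinates `ζ + Λ b` -/
noncomputable def dyy {m N : ℕ} (Λ : Fin m → Fin N → Cc) (ζ : Fin m → Cc) (b : Fin N → (QC Cc)) :
    Fin m → Cc :=
  fun i => ζ i + cmb (Λ i) b

/-- **Linear systems.** -/
theorem dlin_sys {N m r s : ℕ} (Λ : Fin m → Fin N → Cc) (hΛ : ∀ i k, Λ i k ∈ Lt)
    (hgen : DefLE s Λ) (ζ : Fin m → Cc) (F : Fin (r + 1) → MvPolynomial (Fin m) Cc)
    (φ : Fin (m * (m - 1) + s + r + 1) → ((Fin N → (QC Cc)) →ₗ[(QC Cc)] (QC Cc))) :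
    ∃ P : MvPolynomial (Fin (m * (m - 1) + s + r + 1)) (QC Cc), P ≠ 0 ∧
      ∀ (b : Fin N → (QC Cc)) (c : Fin (r + 1) → (QC Cc)), c ≠ 0 →
        ∑ j, (c j : Cc) * MvPolynomial.eval (dyy Λ ζ b) (F j) = 0 →
        (∃ i, ∑ j, (c j : Cc) *
          MvPolynomial.eval (dyy Λ ζ b) (MvPolynomial.pderiv i (F j)) ≠ 0) →
        MvPolynomial.eval (fun k => φ k b) P = 0 := by
  classical
  let f : Fin (r + 1) → Fin 1 → MvPolynomial (Fin m ⊕ Fin r) Cc := fun j₀ _ =>
    MvPolynomial.rename Sum.inl (F j₀) + ∑ l, MvPolynomial.X (Sum.inr l) *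
      MvPolynomial.rename Sum.inl (F (j₀.succAbove l))
  choose P hP1 hP2 using fun j₀ => dmaster rfl Λ hΛ hgen ζ (f j₀) φ
  refine ⟨∏ j₀, P j₀, Finset.prod_ne_zero_iff.2 fun j₀ _ => hP1 j₀, fun b c hc h1 h2 => ?_⟩
  obtain ⟨j₀, hj₀⟩ : ∃ j₀, c j₀ ≠ 0 := by
    by_contra h
    push Not at h
    exact hc (funext h)
  have hj₀' : (c j₀ : Cc) ≠ 0 := by exact_mod_cast hj₀
  rw [map_prod]
  refine Finset.prod_eq_zero (Finset.mem_univ j₀) ?_
  set c' : Fin r → (QC Cc) := fun l => c (j₀.succAbove l) / c j₀ with hc'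
  have hev : ∀ g : MvPolynomial (Fin m) Cc,
      MvPolynomial.eval (dpt Λ ζ b c') (MvPolynomial.rename Sum.inl g) =
        MvPolynomial.eval (dyy Λ ζ b) g := by
    intro g
    rw [MvPolynomial.eval_rename]
    rfl
  have hevX : ∀ l, MvPolynomial.eval (dpt Λ ζ b c') (MvPolynomial.X (Sum.inr l)) =
      (c' l : Cc) := by
    intro l
    rw [MvPolynomial.eval_X]
    rfl
  have hsplit : ∀ a : Fin (r + 1) → Cc, a j₀ + ∑ l, (c' l : Cc) * a (j₀.succAbove l) =
      (c j₀ : Cc)⁻¹ * ∑ j, (c j : Cc) * a j := by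
    intro a
    rw [Fin.sum_univ_succAbove _ j₀, mul_add, Finset.mul_sum, ← mul_assoc,
      inv_mul_cancel₀ hj₀', one_mul]
    congr 1
    refine Finset.sum_congr rfl fun l _ => ?_
    rw [hc']
    push_cast
    rw [div_eq_mul_inv]
    ring
  refine hP2 j₀ b c' (fun _ => ?_) ?_
  · change MvPolynomial.eval _ (MvPolynomial.rename Sum.inl (F j₀) +
      ∑ l, MvPolynomial.X (Sum.inr l) * MvPolynomial.rename Sum.inl (F (j₀.succAbove l))) = 0
    rw [map_add, map_sum]
    simp only [map_mul, hev, hevX]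
    rw [hsplit (fun j => MvPolynomial.eval (dyy Λ ζ b) (F j)), h1, mul_zero]
  · obtain ⟨i, hi⟩ := h2
    refine ⟨0, i, ?_⟩
    change MvPolynomial.eval _ (MvPolynomial.pderiv (Sum.inl i)
        (MvPolynomial.rename Sum.inl (F j₀) + ∑ l, MvPolynomial.X (Sum.inr l) *
          MvPolynomial.rename Sum.inl (F (j₀.succAbove l)))) ≠ 0
    have h4 : ∀ l : Fin r, MvPolynomial.pderiv (Sum.inl i) (MvPolynomial.X (Sum.inr l) *
          MvPolynomial.rename (Sum.inl : Fin m → Fin m ⊕ Fin r) (F (j₀.succAbove l))) =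
          MvPolynomial.X (Sum.inr l) * MvPolynomial.rename Sum.inl
            (MvPolynomial.pderiv i (F (j₀.succAbove l))) := by
      intro l
      rw [MvPolynomial.pderiv_mul, MvPolynomial.pderiv_X_of_ne (by simp), zero_mul, zero_add,
          MvPolynomial.pderiv_rename Sum.inl_injective]
    rw [map_add, map_sum, MvPolynomial.pderiv_rename Sum.inl_injective, map_add, map_sum]
    simp only [h4, map_mul, hev, hevX]
    rw [hsplit (fun j => MvPolynomial.eval (dyy Λ ζ b) (MvPolynomial.pderiv i (F j)))]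
    exact mul_ne_zero (inv_ne_zero hj₀') hi

theorem drel_dim {N n m D s : ℕ} (Λ : Fin m → Fin N → Cc) (hΛ : ∀ i k, Λ i k ∈ Lt)
    (hgen : DefLE s Λ) (ζ : Fin m → Cc) (x : Fin n → Cc)
    (φ : Fin (m * (m - 1) + s + (D + (n + m)).choose (n + m)) → ((Fin N → (QC Cc)) →ₗ[(QC Cc)] (QC Cc))) :
    ∃ P : MvPolynomial (Fin (m * (m - 1) + s + (D + (n + m)).choose (n + m))) (QC Cc), P ≠ 0 ∧
      ∀ (b : Fin N → (QC Cc)) (f : MvPolynomial (Fin n ⊕ Fin m) (QC Cc)), f ≠ 0 →
        f.totalDegree ≤ D → MvPolynomial.aeval (Sum.elim x (dyy Λ ζ b)) f = 0 →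
        (∃ i, MvPolynomial.aeval (Sum.elim x (dyy Λ ζ b))
          (MvPolynomial.pderiv (Sum.inr i) f) ≠ 0) →
        MvPolynomial.eval (fun k => φ k b) P = 0 := by
  classical
  have h0 : Nonempty (Ex (Fin n ⊕ Fin m) D) := ⟨⟨0, by simp⟩⟩
  obtain ⟨r, hr⟩ : ∃ r, Fintype.card (Ex (Fin n ⊕ Fin m) D) = r + 1 :=
    ⟨Fintype.card (Ex (Fin n ⊕ Fin m) D) - 1, by
      have := Fintype.card_pos (α := Ex (Fin n ⊕ Fin m) D)
      omega⟩
  have hle : r + 1 ≤ (D + (n + m)).choose (n + m) := by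
    rw [← hr]
    exact card_Ex' n m D
  let ε : Fin (r + 1) ≃ Ex (Fin n ⊕ Fin m) D := (Fintype.equivFinOfCardEq hr).symm
  let F : Fin (r + 1) → MvPolynomial (Fin m) Cc := fun j =>
    Psi x (MvPolynomial.monomial (ε j).1 (1 : Cc))
  have hn : m * (m - 1) + s + r + 1 ≤ m * (m - 1) + s + (D + (n + m)).choose (n + m) := by omega
  obtain ⟨P, hP1, hP2⟩ := dlin_sys Λ hΛ hgen ζ F (fun k => φ (Fin.castLE hn k))
  refine ⟨MvPolynomial.rename (Fin.castLE hn) P, ?_, ?_⟩
  · intro h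
    apply hP1
    apply MvPolynomial.rename_injective _ (Fin.castLE_injective hn)
    rw [h, map_zero]
  · intro b f hf0 hfD hf hrk
    rw [MvPolynomial.eval_rename]
    set c : Fin (r + 1) → (QC Cc) := fun j => MvPolynomial.coeff (ε j).1 f with hc
    have hsum : f = ∑ j, MvPolynomial.C (c j) * MvPolynomial.monomial (ε j).1 (1 : (QC Cc)) := by
      have h1 : f = ∑ s : Ex (Fin n ⊕ Fin m) D,
          MvPolynomial.C (MvPolynomial.coeff s.1 f) * MvPolynomial.monomial s.1 (1 : (QC Cc)) := by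
        refine MvPolynomial.ext _ _ fun s => ?_
        rw [MvPolynomial.coeff_sum]
        simp only [MvPolynomial.coeff_C_mul, MvPolynomial.coeff_monomial, mul_ite, mul_one,
          mul_zero]
        by_cases hs : s.degree ≤ D
        · rw [Finset.sum_eq_single (⟨s, hs⟩ : Ex (Fin n ⊕ Fin m) D)]
          · rw [if_pos rfl]
          · intro t _ ht
            rw [if_neg]
            intro h
            exact ht (Subtype.ext h)
          · intro h; exact absurd (Finset.mem_univ _) h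
        · rw [Finset.sum_eq_zero]
          · by_contra h
            apply hs
            have h2 := MvPolynomial.le_totalDegree (MvPolynomial.mem_support_iff.2 h)
            exact h2.trans hfD
          · intro t _
            rw [if_neg]
            rintro rfl
            exact hs t.2
      conv_lhs => rw [h1]
      exact (Equiv.sum_comp ε (fun s : Ex (Fin n ⊕ Fin m) D =>
        MvPolynomial.C (MvPolynomial.coeff s.1 f) * MvPolynomial.monomial s.1 (1 : (QC Cc)))).symm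
    have hmap : MvPolynomial.map (algebraMap (QC Cc) Cc) f =
        ∑ j, MvPolynomial.C (c j : Cc) * MvPolynomial.monomial (ε j).1 (1 : Cc) := by
      conv_lhs => rw [hsum]
      rw [map_sum]
      refine Finset.sum_congr rfl fun j _ => ?_
      rw [map_mul, MvPolynomial.map_C, MvPolynomial.map_monomial, map_one]
      rfl
    have hc0 : c ≠ 0 := by
      intro h
      apply hf0
      rw [hsum, h]
      simp
    refine hP2 b c hc0 ?_ ?_
    · rw [← hf, ← eval_map_K, hmap, map_sum]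
      refine Finset.sum_congr rfl fun j _ => ?_
      rw [map_mul, MvPolynomial.eval_C]
      congr 1
      exact eval_Psi x _ _
    · obtain ⟨i, hi⟩ := hrk
      refine ⟨i, fun h5 => hi ?_⟩
      rw [← h5, ← eval_map_K, ← MvPolynomial.pderiv_map, hmap, map_sum, map_sum]
      refine Finset.sum_congr rfl fun j _ => ?_
      rw [MvPolynomial.pderiv_C_mul, map_mul, MvPolynomial.eval_C]
      congr 1
      change _ = MvPolynomial.eval _ (MvPolynomial.pderiv i (Psi x _))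
      rw [pderiv_Psi, eval_Psi]

/-- **The exceptional set.** -/
theorem one_generic {N n m D q s : ℕ}
    (hq : q = m * (m - 1) + s + (D + (n + m)).choose (n + m))
    (Λ : Fin m → Fin N → Cc) (hΛ : ∀ i k, Λ i k ∈ Lt)
    (hgen : DefLE s Λ) (ζ : Fin m → Cc) (x : Fin n → Cc) (hx : ¬ RlK (QC Cc) D x)
    (φ : Fin q → ((Fin N → (QC Cc)) →ₗ[(QC Cc)] (QC Cc))) :
    ∃ P : MvPolynomial (Fin q) (QC Cc), P ≠ 0 ∧
      ∀ b : Fin N → (QC Cc), RlK (QC Cc) D (Sum.elim x (dyy Λ ζ b)) →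
        MvPolynomial.eval (fun k => φ k b) P = 0 := by
  subst hq
  obtain ⟨P, h1, h2⟩ := drel_dim (D := D) Λ hΛ hgen ζ x φ
  refine ⟨P, h1, fun b hb => ?_⟩
  obtain ⟨f, hf0, hfD, hf, hmin⟩ := exists_min _ hb
  refine h2 b f hf0 hfD hf ?_
  by_contra hcon
  push Not at hcon
  have h3 : ∀ v : Fin m → (QC Cc), v ∈ RelF (Sum.elim x (dyy Λ ζ b)) f := by
    intro v _
    apply Finset.sum_eq_zero
    intro i _
    change (v i : Cc) * MvPolynomial.aeval (Sum.elim x (dyy Λ ζ b))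
      (MvPolynomial.pderiv (Sum.inr i) f) = 0
    rw [hcon i, mul_zero]
  exact hx ((red x (dyy Λ ζ b) f hf0 hfD hf hmin 0 fun v _ => h3 v 0).1 rfl)

/-- **Counting.** -/
theorem og_count {N n m D d s : ℕ}
    (hd : d + 1 = m * (m - 1) + s + (D + (n + m)).choose (n + m))
    (Λ : Fin m → Fin N → Cc) (hΛ : ∀ i k, Λ i k ∈ Lt)
    (hgen : DefLE s Λ) (ζ : Fin m → Cc) (x : Fin n → Cc) (hx : ¬ RlK (QC Cc) D x) :
    ∃ κ : ℕ, ∀ H : ℕ, 1 ≤ H → Set.ncard {b : Fin N → ℤ | (∀ k, |b k| ≤ H) ∧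
      RlK (QC Cc) D (Sum.elim x (fun i => ζ i + ∑ k, (b k : Cc) * Λ i k))} ≤ κ * H ^ d := by
  classical
  obtain ⟨κ, hκ⟩ := count (d := d) {b : Fin N → (QC Cc) | RlK (QC Cc) D (Sum.elim x (dyy Λ ζ b))}
    (fun φ => one_generic hd Λ hΛ hgen ζ x hx φ)
  refine ⟨κ, fun H hH => ?_⟩
  set T := {b : Fin N → ℤ | (∀ k, |b k| ≤ H) ∧
      RlK (QC Cc) D (Sum.elim x (fun i => ζ i + ∑ k, (b k : Cc) * Λ i k))} with hT
  have hfin : T.Finite := by
    have h1 : ((Fintype.piFinset fun _ : Fin N =>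
        Finset.Icc (-(H : ℤ)) H : Finset (Fin N → ℤ)) : Set (Fin N → ℤ)).Finite :=
      Finset.finite_toSet _
    refine h1.subset fun b hb => ?_
    rw [Finset.mem_coe, Fintype.mem_piFinset]
    intro j
    rw [Finset.mem_Icc, ← abs_le]
    exact hb.1 j
  rw [Set.ncard_eq_toFinset_card T hfin]
  refine hκ H hH _ ?_
  intro a ha
  rw [Set.Finite.mem_toFinset] at ha
  refine ⟨ha.1, ?_⟩
  have h1 : dyy Λ ζ (fun j => (a j : (QC Cc))) = fun i => ζ i + ∑ k, (a k : Cc) * Λ i k := by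
    funext i
    simp only [dyy, cmb]
    congr 1
  change RlK (QC Cc) D _
  rw [h1]
  exact ha.2

end Pool.Agent.H23.PG
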