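import Mathlib
import Pool.Agent.H23.PG.Sys

/-!
# Regulators of subgroups, and hypersurfaces of arbitrary degree
-/

set_option autoImplicit false
set_option linter.unusedSectionVars false

namespace Pool.Agent.H23.PG

open Filter Module Finset
open Pool.Agent.Y787 (QC mem_QC HypC hyperplane)
open Pool.Agent.K3h28.NF (Wide)

section count

variable {K : Type*} [Field K] [CharZero K]

open Classical in
/-- the integral points of a subspace -/
theorem count_subspace {N w : ℕ} (W : Submodule K (Fin N → K)) (hW : finrank K W ≤ w) (H : ℕ) :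
    ((Fintype.piFinset fun _ : Fin N => Finset.Icc (-(H : ℤ)) H).filter
      fun b : Fin N → ℤ => (fun k => (b k : K)) ∈ W).card ≤ (2 * H + 1) ^ w := by
  classical
  set f : Fin N → Module.Dual K W := fun k => (LinearMap.proj k : (Fin N → K) →ₗ[K] K).domRestrict W with hf
  obtain ⟨κ, a, ha, hspan, hli⟩ := exists_linearIndependent' K f
  have : Finite κ := Finite.of_injective a ha
  have := Fintype.ofFinite κ
  have hcard : Fintype.card κ ≤ w := by
    have h1 := hli.fintype_card_le_finrank
    rw [Subspace.dual_finrank_eq] at h1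
    exact h1.trans hW
  have hinj : ∀ x y : W, (∀ j, (x : Fin N → K) (a j) = (y : Fin N → K) (a j)) → x = y := by
    intro x y hxy
    have h1 : ∀ g ∈ Submodule.span K (Set.range (f ∘ a)), g (x - y) = 0 := by
      intro g hg
      induction hg using Submodule.span_induction with
      | mem g hg =>
        obtain ⟨j, rfl⟩ := hg
        show (x - y : W).1 (a j) = 0
        rw [Submodule.coe_sub, Pi.sub_apply, hxy j, sub_self]
      | zero => rfl
      | add g g' _ _ h h' => rw [LinearMap.add_apply, h, h', add_zero]
      | smul c g _ h => rw [LinearMap.smul_apply, h, smul_zero]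
    rw [hspan] at h1
    have h2 : x - y = 0 := by
      apply Subtype.ext
      funext k
      exact h1 (f k) (Submodule.subset_span ⟨k, rfl⟩)
    exact sub_eq_zero.1 h2
  have h1 : ((Fintype.piFinset fun _ : Fin N => Finset.Icc (-(H : ℤ)) H).filter
      fun b : Fin N → ℤ => (fun k => (b k : K)) ∈ W).card ≤
      (Fintype.piFinset fun _ : κ => Finset.Icc (-(H : ℤ)) H).card := by
    apply Finset.card_le_card_of_injOn (fun b j => b (a j))
    · intro b hb
      rw [Finset.mem_coe, Finset.mem_filter, Fintype.mem_piFinset] at hb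
      rw [Finset.mem_coe, Fintype.mem_piFinset]
      exact fun j => hb.1 _
    · intro b hb b' hb' h
      rw [Finset.mem_coe, Finset.mem_filter] at hb hb'
      have h3 := hinj ⟨_, hb.2⟩ ⟨_, hb'.2⟩ (fun j => by
        show ((b (a j) : ℤ) : K) = ((b' (a j) : ℤ) : K)
        exact congrArg _ (congrFun h j))
      funext k
      have h4 : ((b k : ℤ) : K) = ((b' k : ℤ) : K) := congrFun (Subtype.ext_iff.1 h3) k
      exact_mod_cast h4
  refine h1.trans ?_
  rw [Fintype.card_piFinset, Finset.prod_const, Finset.card_univ, Int.card_Icc]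
  have h2 : ((H : ℤ) + 1 - -(H : ℤ)).toNat = 2 * H + 1 := by omega
  rw [h2]
  exact Nat.pow_le_pow_right (by omega) hcard

end count

variable {Cc : Type} [Field Cc] [CharZero Cc]

/-- the box of `r`-tuples of vectors -/
noncomputable def boxes (r N H : ℕ) : Finset (Fin r → Fin N → ℤ) :=
  Fintype.piFinset fun _ => Fintype.piFinset fun _ : Fin N => Finset.Icc (-(H : ℤ)) H

theorem card_boxes (r N H : ℕ) : (boxes r N H).card = ((2 * H + 1) ^ N) ^ r := by
  rw [boxes, Fintype.card_piFinset, Finset.prod_const, Finset.card_univ, Fintype.card_fin,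
    Fintype.card_piFinset, Finset.prod_const, Finset.card_univ, Fintype.card_fin, Int.card_Icc]
  congr 2
  omega

/-- the columns: given ones and combinations of the columns of `Λ` -/
def cols {d s N r : ℕ} (Z : Fin s → Fin d → Cc) (Λ : Fin d → Fin N → Cc) (B : Fin r → Fin N → ℤ) :
    Fin s ⊕ Fin r → Fin d → Cc :=
  Sum.elim Z fun j i => ∑ k, (B j k : Cc) * Λ i k

open Classical in
/-- **Counting.** -/
theorem reg_count {d s N h : ℕ} (Λ : Fin d → Fin N → Cc)
    (hw : Wide (QC Cc) h (fun (k : Fin N) (i : Fin d) => Λ i k)) (Z : Fin s → Fin d → Cc)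
    (hZ : LinearIndependent Cc Z) (H : ℕ) : ∀ r : ℕ, s + r ≤ d →
    ((boxes r N H).filter fun B => ¬ LinearIndependent Cc (cols Z Λ B)).card ≤
      r * (2 * H + 1) ^ ((r - 1) * N + h) := by
  intro r
  induction r with
  | zero =>
    intro _
    rw [zero_mul, Nat.le_zero, Finset.card_eq_zero, Finset.filter_eq_empty_iff]
    intro B _
    rw [not_not]
    have h1 : cols Z Λ B = Z ∘ (Equiv.sumEmpty (Fin s) (Fin 0)) := by
      funext x
      rcases x with x | x
      · rfl
      · exact x.elim0
    rw [h1]
    exact hZ.comp _ (Equiv.injective _)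
  | succ r ih =>
    intro hsr
    have ih' := ih (by omega)
    -- a vector orthogonal to the first columns
    have hu : ∀ B : Fin r → Fin N → ℤ, ∃ u : Fin d → Cc, u ≠ 0 ∧ ∀ x, ∑ i, u i * cols Z Λ B x i = 0 := by
      intro B
      let F : (Fin d → Cc) →ₗ[Cc] (Fin s ⊕ Fin r → Cc) :=
        { toFun := fun u x => ∑ i, u i * cols Z Λ B x i
          map_add' := by
            intro u v
            funext x
            simp only [Pi.add_apply, add_mul, Finset.sum_add_distrib]
          map_smul' := by
            intro a u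
            funext x
            simp only [Pi.smul_apply, smul_eq_mul, RingHom.id_apply, Finset.mul_sum, mul_assoc] }
      have h1 : LinearMap.ker F ≠ ⊥ := by
        apply LinearMap.ker_ne_bot_of_finrank_lt
        rw [finrank_fintype_fun_eq_card, finrank_fintype_fun_eq_card, Fintype.card_sum,
          Fintype.card_fin, Fintype.card_fin, Fintype.card_fin]
        omega
      obtain ⟨u, hu1, hu2⟩ := (Submodule.ne_bot_iff _).1 h1
      exact ⟨u, hu2, fun x => congrFun hu1 x⟩
    choose u hu0 hu1 using hu
    -- the space of the vectors whose combination is orthogonal to `u B`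
    let W : (Fin r → Fin N → ℤ) → Submodule (QC Cc) (Fin N → QC Cc) := fun B =>
      { carrier := {T | ∑ c, u B c * ∑ i, T i • Λ c i = 0}
        add_mem' := by
          intro T T' hT hT'
          show ∑ c, u B c * ∑ i, (T + T') i • Λ c i = 0
          simp only [Pi.add_apply, add_smul, Finset.sum_add_distrib, mul_add]
          have h1 : ∑ c, u B c * ∑ i, T i • Λ c i = 0 := hT
          have h2 : ∑ c, u B c * ∑ i, T' i • Λ c i = 0 := hT'
          rw [h1, h2, add_zero]
        zero_mem' := by
          show ∑ c, u B c * ∑ i, (0 : Fin N → QC Cc) i • Λ c i = 0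
          simp
        smul_mem' := by
          intro a T hT
          show ∑ c, u B c * ∑ i, (a • T) i • Λ c i = 0
          have h2 : ∑ c, u B c * ∑ i, T i • Λ c i = 0 := hT
          simp only [Pi.smul_apply, smul_eq_mul, mul_smul, ← Finset.smul_sum, mul_smul_comm]
          rw [h2, smul_zero] }
    have hWdim : ∀ B, finrank (QC Cc) (W B) ≤ h := by
      intro B
      by_contra hcon
      push Not at hcon
      exact hu0 B (hw (W B) hcon (u B) fun T hT => hT)
    set E : Finset (Fin r → Fin N → ℤ) := (boxes r N H).filter fun B => ¬ LinearIndependent Cc (cols Z Λ B)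
      with hE
    set bx : Finset (Fin N → ℤ) := Fintype.piFinset fun _ : Fin N => Finset.Icc (-(H : ℤ)) H with hbx
    have hbxc : bx.card = (2 * H + 1) ^ N := by
      rw [hbx, Fintype.card_piFinset, Finset.prod_const, Finset.card_univ, Fintype.card_fin, Int.card_Icc]
      congr 1
      omega
    set Q : Finset ((Fin r → Fin N → ℤ) × (Fin N → ℤ)) := (E ×ˢ bx) ∪
      ((boxes r N H ×ˢ bx).filter fun q => (fun k => (q.2 k : QC Cc)) ∈ W q.1) with hQ
    have hsub : ((boxes (r + 1) N H).filter fun B => ¬ LinearIndependent Cc (cols Z Λ B)) ⊆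
        Q.image fun q => (Fin.cons q.2 q.1 : Fin (r + 1) → Fin N → ℤ) := by
      intro B hB
      rw [Finset.mem_filter, boxes, Fintype.mem_piFinset] at hB
      obtain ⟨hB1, hB2⟩ := hB
      rw [Finset.mem_image]
      refine ⟨(Fin.tail B, B 0), ?_, Fin.cons_self_tail B⟩
      have ht : Fin.tail B ∈ boxes r N H := by
        rw [boxes, Fintype.mem_piFinset]
        exact fun j => hB1 j.succ
      rw [hQ, Finset.mem_union]
      by_cases hli : LinearIndependent Cc (cols Z Λ (Fin.tail B))
      · right
        rw [Finset.mem_filter, Finset.mem_product]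
        refine ⟨⟨ht, hB1 0⟩, ?_⟩
        show ∑ c, u (Fin.tail B) c * ∑ i, (B 0 i : QC Cc) • Λ c i = 0
        by_contra hne
        apply hB2
        rw [Fintype.linearIndependent_iff] at hli ⊢
        intro g hg
        have hx0 : ∀ c, ∑ i, (B 0 i : QC Cc) • Λ c i = cols Z Λ B (Sum.inr 0) c := by
          intro c
          show _ = ∑ k, (B 0 k : Cc) * Λ c k
          refine Finset.sum_congr rfl fun k _ => ?_
          rw [Algebra.smul_def]
          congr 1
        simp only [hx0] at hne
        have hinl : ∀ x, cols Z Λ B (Sum.inl x) = cols Z Λ (Fin.tail B) (Sum.inl x) := fun x => rfl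
        have hinr : ∀ x : Fin r, cols Z Λ B (Sum.inr x.succ) = cols Z Λ (Fin.tail B) (Sum.inr x) :=
          fun x => rfl
        rw [Fintype.sum_sum_type, Fin.sum_univ_succ] at hg
        have hdot : ∀ v : Fin d → Cc, v = 0 → ∑ i, u (Fin.tail B) i * v i = 0 := by
          intro v hv
          rw [hv]
          simp
        have h1 := hdot _ hg
        simp only [Pi.add_apply, Finset.sum_apply, Pi.smul_apply, smul_eq_mul, mul_add,
          Finset.sum_add_distrib, Finset.mul_sum] at h1
        have h2 : ∑ i, ∑ x, u (Fin.tail B) i * (g (Sum.inl x) * cols Z Λ B (Sum.inl x) i) = 0 := by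
          rw [Finset.sum_comm]
          refine Finset.sum_eq_zero fun x _ => ?_
          have h3 := hu1 (Fin.tail B) (Sum.inl x)
          calc ∑ i, u (Fin.tail B) i * (g (Sum.inl x) * cols Z Λ B (Sum.inl x) i) =
              g (Sum.inl x) * ∑ i, u (Fin.tail B) i * cols Z Λ (Fin.tail B) (Sum.inl x) i := by
                rw [Finset.mul_sum]
                refine Finset.sum_congr rfl fun i _ => ?_
                rw [hinl x]
                ring
            _ = 0 := by rw [h3, mul_zero]
        have h4 : ∑ i, ∑ x : Fin r, u (Fin.tail B) i * (g (Sum.inr x.succ) * cols Z Λ B (Sum.inr x.succ) i) = 0 := by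
          rw [Finset.sum_comm]
          refine Finset.sum_eq_zero fun x _ => ?_
          have h3 := hu1 (Fin.tail B) (Sum.inr x)
          calc ∑ i, u (Fin.tail B) i * (g (Sum.inr x.succ) * cols Z Λ B (Sum.inr x.succ) i) =
              g (Sum.inr x.succ) * ∑ i, u (Fin.tail B) i * cols Z Λ (Fin.tail B) (Sum.inr x) i := by
                rw [Finset.mul_sum]
                refine Finset.sum_congr rfl fun i _ => ?_
                rw [hinr x]
                ring
            _ = 0 := by rw [h3, mul_zero]
        rw [h2, h4, zero_add, add_zero] at h1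
        have h5 : g (Sum.inr 0) * ∑ c, u (Fin.tail B) c * cols Z Λ B (Sum.inr 0) c = 0 := by
          rw [← h1, Finset.mul_sum]
          refine Finset.sum_congr rfl fun i _ => ?_
          ring
        have hg0 : g (Sum.inr 0) = 0 := (mul_eq_zero.1 h5).resolve_right hne
        rw [hg0, zero_smul, zero_add] at hg
        have h6 := hli (fun x => Sum.elim (fun a => g (Sum.inl a)) (fun b => g (Sum.inr b.succ)) x) (by
          rw [Fintype.sum_sum_type]
          simp only [Sum.elim_inl, Sum.elim_inr]
          exact hg)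
        intro x
        rcases x with x | x
        · exact h6 (Sum.inl x)
        · refine Fin.cases hg0 (fun y => ?_) x
          exact h6 (Sum.inr y)
      · left
        rw [Finset.mem_product, hE, Finset.mem_filter]
        exact ⟨⟨ht, hli⟩, hB1 0⟩
    have hQ2 : ((boxes r N H ×ˢ bx).filter fun q => (fun k => (q.2 k : QC Cc)) ∈ W q.1).card ≤
        ((2 * H + 1) ^ N) ^ r * (2 * H + 1) ^ h := by
      have h1 : ((boxes r N H ×ˢ bx).filter fun q => (fun k => (q.2 k : QC Cc)) ∈ W q.1).card =
          ∑ B ∈ boxes r N H, (bx.filter fun b => (fun k => (b k : QC Cc)) ∈ W B).card := by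
        rw [Finset.card_filter, Finset.sum_product]
        refine Finset.sum_congr rfl fun B _ => ?_
        rw [Finset.card_filter]
      rw [h1, ← card_boxes r N H]
      refine (Finset.sum_le_card_nsmul _ _ ((2 * H + 1) ^ h) fun B _ => ?_).trans (le_of_eq ?_)
      · exact count_subspace (W B) (hWdim B) H
      · rw [smul_eq_mul]
    calc ((boxes (r + 1) N H).filter fun B => ¬ LinearIndependent Cc (cols Z Λ B)).card ≤
        (Q.image fun q => (Fin.cons q.2 q.1 : Fin (r + 1) → Fin N → ℤ)).card := Finset.card_le_card hsub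
      _ ≤ Q.card := Finset.card_image_le
      _ ≤ (E ×ˢ bx).card + ((boxes r N H ×ˢ bx).filter fun q => (fun k => (q.2 k : QC Cc)) ∈ W q.1).card :=
          Finset.card_union_le _ _
      _ ≤ (r * (2 * H + 1) ^ ((r - 1) * N + h)) * (2 * H + 1) ^ N +
          ((2 * H + 1) ^ N) ^ r * (2 * H + 1) ^ h := by
          rw [Finset.card_product, hbxc]
          exact Nat.add_le_add (Nat.mul_le_mul_right _ ih') hQ2
      _ ≤ (r + 1) * (2 * H + 1) ^ ((r + 1 - 1) * N + h) := by
          rw [add_mul, one_mul, Nat.add_sub_cancel, ← pow_mul, ← pow_add, mul_assoc, ← pow_add]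
          have h1 : N * r + h = r * N + h := by ring
          rw [h1]
          rcases Nat.eq_zero_or_pos r with hr | hr
          · subst hr; simp
          · have h2 : (r - 1) * N + h + N = r * N + h := by
              obtain ⟨r', rfl⟩ : ∃ r', r = r' + 1 := ⟨r - 1, by omega⟩
              rw [Nat.add_sub_cancel]
              ring
            rw [h2]

section hyper

/-- a polynomial without variables in its derivatives -/
theorem exists_pderiv {m : ℕ} (F : MvPolynomial (Fin m) Cc) (hF : F.totalDegree ≠ 0) :
    ∃ i, MvPolynomial.pderiv i F ≠ 0 := by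
  classical
  by_contra hcon
  push Not at hcon
  apply hF
  rw [MvPolynomial.totalDegree_eq_zero_iff]
  intro t ht i
  by_contra hti
  have h1 := congrArg (MvPolynomial.coeff (t - Finsupp.single i 1)) (hcon i)
  rw [MvPolynomial.coeff_pderiv, MvPolynomial.coeff_zero] at h1
  have h2 : t - Finsupp.single i 1 + Finsupp.single i 1 = t := by
    apply tsub_add_cancel_of_le
    rw [Finsupp.single_le_iff]
    omega
  rw [h2] at h1
  rcases mul_eq_zero.1 h1 with h3 | h3
  · exact (MvPolynomial.mem_support_iff.1 ht) h3
  · have h4 : (((t - Finsupp.single i 1 : Fin m →₀ ℕ) i + 1 : ℕ) : Cc) = 0 := by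
      push_cast
      exact h3
    have h5 := Nat.cast_eq_zero.1 h4
    omega

theorem totalDegree_pderiv {m n : ℕ} (F : MvPolynomial (Fin m) Cc) (hF : F.totalDegree ≤ n + 1) (i : Fin m) :
    (MvPolynomial.pderiv i F).totalDegree ≤ n := by
  classical
  rw [MvPolynomial.totalDegree, Finset.sup_le_iff]
  intro t ht
  have h1 := MvPolynomial.mem_support_iff.1 ht
  rw [MvPolynomial.coeff_pderiv] at h1
  have h2 : t + Finsupp.single i 1 ∈ F.support := by
    rw [MvPolynomial.mem_support_iff]
    intro h
    rw [h, zero_mul] at h1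
    exact h1 rfl
  have h3 := (MvPolynomial.le_totalDegree h2).trans hF
  have h4 : Finsupp.degree (t + Finsupp.single i 1) ≤ n + 1 := h3
  rw [map_add, Finsupp.degree_single] at h4
  have h5 : Finsupp.degree t ≤ n := by omega
  exact h5

variable [IsAlgClosed Cc] [Uncountable Cc] {Lt : Submodule (QC Cc) Cc} [HypC Lt]

/-- **Hypersurfaces of arbitrary degree with arbitrary coefficients.** -/
theorem hyper_dim {N m s q : ℕ} (hq : q = m * (m - 1) + s + 1)
    (Λ : Fin m → Fin N → Cc) (hΛ : ∀ i k, Λ i k ∈ Lt) (hgen : DefLE s Λ) (ζ : Fin m → Cc)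
    (φ : Fin q → ((Fin N → (QC Cc)) →ₗ[(QC Cc)] (QC Cc))) :
    ∀ (n : ℕ) (F : MvPolynomial (Fin m) Cc), F ≠ 0 → F.totalDegree ≤ n →
    ∃ P : MvPolynomial (Fin q) (QC Cc), P ≠ 0 ∧
      ∀ b : Fin N → (QC Cc), MvPolynomial.eval (dyy Λ ζ b) F = 0 →
        MvPolynomial.eval (fun k => φ k b) P = 0 := by
  classical
  intro n
  induction n with
  | zero =>
    intro F hF hn
    refine ⟨1, one_ne_zero, fun b hb => ?_⟩
    exfalso
    apply hF
    obtain ⟨c, rfl⟩ : ∃ c, F = MvPolynomial.C c :=
      ⟨_, MvPolynomial.totalDegree_eq_zero_iff_eq_C.1 (Nat.le_zero.1 hn)⟩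
    rw [MvPolynomial.eval_C] at hb
    rw [hb, MvPolynomial.C_0]
  | succ n ih =>
    intro F hF hn
    by_cases hc : F.totalDegree = 0
    · exact ih F hF (by omega)
    · -- some derivative is not zero
      obtain ⟨i, hi⟩ := exists_pderiv F hc
      obtain ⟨P₂, h3, h4⟩ := ih (MvPolynomial.pderiv i F) hi (totalDegree_pderiv F hn i)
      obtain ⟨P₁, h1, h2⟩ := dmaster (p := 0) (r := 1) (by omega) Λ hΛ hgen ζ
        (fun _ => MvPolynomial.rename Sum.inl F) φ
      refine ⟨P₁ * P₂, mul_ne_zero h1 h3, fun b hb => ?_⟩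
      rw [map_mul]
      by_cases hb2 : MvPolynomial.eval (dyy Λ ζ b) (MvPolynomial.pderiv i F) = 0
      · rw [h4 b hb2, mul_zero]
      · have hev : ∀ g : MvPolynomial (Fin m) Cc,
            MvPolynomial.eval (dpt Λ ζ b (fun x : Fin 0 => x.elim0)) (MvPolynomial.rename Sum.inl g) =
            MvPolynomial.eval (dyy Λ ζ b) g := by
          intro g
          rw [MvPolynomial.eval_rename]
          rfl
        rw [h2 b (fun x : Fin 0 => x.elim0) (fun _ => by rw [hev]; exact hb)
          ⟨0, i, by rw [MvPolynomial.pderiv_rename Sum.inl_injective, hev]; exact hb2⟩, zero_mul]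

end hyper

end Pool.Agent.H23.PG
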